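import Pool.Agent.Helper568_LV.Curve

/-!
# Integral points and entire curves in complements of divisors without lines

MP_e97a4d_nt, Q1. Let `V` be the affine variety `G j (x) = 0` (`j < r`), `y i ^ k i = F i (x)`
(`i < S`), `H (x) = 1`, `x = (x_0, …, x_M)`, where the `G j`, `F i`, `H` are forms of the degrees
`d j`, `k i * m i`, `δ` over the ring of integers of a number field. It is an étale covering of
degree `δ` of the complement of the divisor `D`, given by `H = 0`, in the (weighted projective)
abelian covering `X : y i ^ k i = F i (x)` of the complete intersection `G = 0`. If `X` is smooth of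
dimension `n = M - r`, then `K_X + D = (∑ d j + ∑ (k i - 1) m i + δ - M - 1) h`, `h` the hyperplane
class. If this is at most `(n - 1) h` (for `δ = 1`: at most `(n - 2) h`) and there is no line in
`G = H = 0`, then the two conditions of the problem are both false for `V` and all closed subschemes
`V'` with finitely many complex points, for instance `V' = ∅`: there are nonconstant entire curves in
`V`, and infinitely many integral points over the ring of `S`-integers of some number field. The
hypothesis on the lines is satisfied by general forms `G j`, `H` if `∑ (d j + 1) + δ ≥ 2 M - 2`.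
-/

set_option autoImplicit false

namespace Pool.Agent.Results.MP_e97a4d_nt.ContactLineComplements

open MvPolynomial Pool.Agent.Helper568.LV Pool.Agent.H159R3.Exp
open scoped NumberField

theorem result (K : Type) [Field K] [NumberField K] (σ : K →+* ℂ) (M r S : ℕ) (d : Fin r → ℕ)
    (hd : ∀ j, 1 ≤ d j) (k m : Fin S → ℕ) (hk : ∀ i, 1 ≤ k i) (hm : ∀ i, 1 ≤ m i) (δ : ℕ)
    (hδ : 1 ≤ δ) (hle : ∑ j, (d j + 1) + ∑ i, (k i - 1) * m i + max δ 2 ≤ 2 * M)
    (G : Fin r → MvPolynomial (Fin (M + 1)) (𝓞 K)) (hG : ∀ j, (G j).IsHomogeneous (d j))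
    (F : Fin S → MvPolynomial (Fin (M + 1)) (𝓞 K)) (hF : ∀ i, (F i).IsHomogeneous (k i * m i))
    (H : MvPolynomial (Fin (M + 1)) (𝓞 K)) (hH : H.IsHomogeneous δ)
    (hline : NoLine (fun j => map (σ.comp (algebraMap (𝓞 K) K)) (G j))
      (map (σ.comp (algebraMap (𝓞 K) K)) H))
    (ι : Type) (Z : ι → MvPolynomial (Fin (M + 1 + S)) (𝓞 K))
    (hZ : {P : Fin (M + 1 + S) → ℂ |
      (∀ x, eval₂ (σ.comp (algebraMap (𝓞 K) K)) P (eqs k G F H x) = 0) ∧
        ∀ j, eval₂ (σ.comp (algebraMap (𝓞 K) K)) P (Z j) = 0}.Finite) :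
    ¬ CurvesIn σ (eqs k G F H) Z ∧ ¬ FinitelyManyIntegral (eqs k G F H) Z := by
  obtain ⟨N, rfl⟩ : ∃ N, M = N + 1 := ⟨M - 1, by have := le_max_right δ 2; omega⟩
  exact main_H σ hd hk hm hδ hle hG hF hH hline hZ

end Pool.Agent.Results.MP_e97a4d_nt.ContactLineComplements
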