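import Mathlib
import Pool.Agent.Helper435.RT.MainA

/-!
MP_e97a4d_nt, Q1: the equivalence of the two conditions for affine schemes, for entire curves which
are built by exponentials and integrations, and for integral points which are given by formulas in
one real variable.
-/

set_option autoImplicit false

namespace Pool.Agent.Results.MP_e97a4d_nt.FormulaIntegral

open MvPolynomial Pool.Agent.Helper435.RT
open scoped NumberField

/-- There are numbers `B n d m` with the following property. Let `K` be a number field, embedded in
`ℂ` by `σ`, and let `V` and `V'` be given by polynomials `F` and `G` in `n` variables over the ring
of integers of `K`, where the number of the polynomials `F` is finite. The following are equivalent: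
condition (i) for entire curves with coordinates which are obtained from the constants by additions,
multiplications, exponentials and integrations; all nonconstant maps from the punctured line to
`V` lie in `V'`; if the polynomials `F` have degree at most `d`, at most `B n d m` points of `V(L)`
outside of `V'` are given by formulas in one real variable with at most `m` nested operations, for
all fields `L` which contain `K`; condition (ii) for the `S`-integral points which are given by such
formulas.

In particular, condition (i) implies the bound for the number of points, and condition (ii) implies
condition (i) for these curves. -/
theorem result : ∃ B : ℕ → ℕ → ℕ → ℕ, ∀ (K : Type) [Field K] [NumberField K] (σ : K →+* ℂ)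
    (ι κ : Type) [Finite ι] (n : ℕ) (F : ι → MvPolynomial (Fin n) (𝓞 K))
    (G : κ → MvPolynomial (Fin n) (𝓞 K)),
    [CondIExp σ F G, GmCurves σ F G,
      ∀ d m, (∀ i, (F i).totalDegree ≤ d) → AtMostA (B n d m) m F G,
      CondIIFormula F G].TFAE ∧
    (CondI σ F G → ∀ d m, (∀ i, (F i).totalDegree ≤ d) → AtMostA (B n d m) m F G) ∧
    (CondII F G → CondIExp σ F G) :=
  mainA

end Pool.Agent.Results.MP_e97a4d_nt.FormulaIntegral
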