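import Mathlib
import Pool.Agent.H159R3.Exp.BLV

/-!
# The Bombieri-Lang-Vojta equivalence and linear group actions

Let `V` be an affine scheme over the ring of integers of a number field, given by polynomials `F`,
and let `Z` be the closed subscheme of `V` given by further polynomials `H`. Suppose that all but
finitely many of the complex points of `V` outside `Z` are limits of points lying on nonconstant
entire curves in `V` whose coordinates are polynomials in the variable and in exponentials of
entire functions. Then, for every closed subscheme `V'`, given by `G`: condition (i) holds for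
`(V, V')` if and only if all but finitely many of the complex points of `V` outside `Z` are in `V'`
and (i) holds for `(Z, Z ∩ V')`, and likewise for condition (ii). So the equivalence of (i) and
(ii) for `(V, V')` follows from that for `(Z, Z ∩ V')`.

The hypothesis holds if the complex points of `V` are stable under the flows of some linear vector
fields `x ↦ X x` (for example if a linear algebraic group acts on `V` by linear maps of the ambient
space) and all but finitely many of the fixed points are in `Z`. In particular, if there are only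
finitely many fixed points, then both (i) and (ii) are equivalent to the finiteness of the set of
complex points of `V` outside `V'`, whatever the number, the degrees and the singularities of the
equations are. For polynomials `F` that are homogeneous for integral weights of the coordinates
(torus actions) `Z` can be taken to be the fixed locus, where the coordinates of nonzero weight
vanish.
-/

set_option autoImplicit false

namespace Pool.Agent.Results.MP_e97a4d_nt.TorusReduction

open MvPolynomial IsDedekindDomain Topology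
open scoped NumberField
open Pool.Agent.H159R3.Exp

section defs

variable {K : Type} [Field K] {ι κ : Type} {n : ℕ}

/-- The complex points of the affine scheme given by `F`. -/
def Points (σ : K →+* ℂ) (F : ι → MvPolynomial (Fin n) (𝓞 K)) : Set (Fin n → ℂ) :=
  {x | ∀ i, eval₂ (σ.comp (algebraMap (𝓞 K) K)) x (F i) = 0}

/-- Condition (i): the image of every nonconstant entire curve in `V` lies in `V'`. -/
def EntireCurvesIn (σ : K →+* ℂ) (F : ι → MvPolynomial (Fin n) (𝓞 K))
    (G : κ → MvPolynomial (Fin n) (𝓞 K)) : Prop :=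
  ∀ f : ℂ → Fin n → ℂ, Differentiable ℂ f → (∀ z, f z ∈ Points σ F) → (∃ z w, f z ≠ f w) →
    ∀ z, f z ∈ Points σ G

/-- `V(O_S)`, for the ring `O_S` of `S`-integers of `L`. -/
def SIntegralPoints (F : ι → MvPolynomial (Fin n) (𝓞 K)) (L : Type) [Field L] [NumberField L]
    [Algebra K L] (S : Set (HeightOneSpectrum (𝓞 L))) : Set (Fin n → L) :=
  {x | (∀ j, x j ∈ S.integer L) ∧
    ∀ i, eval₂ ((algebraMap K L).comp (algebraMap (𝓞 K) K)) x (F i) = 0}

/-- Condition (ii): `V(O_S) ∖ V'(O_S)` is finite for all finite extensions `L` of `K` and all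
finite sets `S` of places of `L`. -/
def IntegralPointsFinite (F : ι → MvPolynomial (Fin n) (𝓞 K))
    (G : κ → MvPolynomial (Fin n) (𝓞 K)) : Prop :=
  ∀ (L : Type) [Field L] [NumberField L] [Algebra K L] (S : Set (HeightOneSpectrum (𝓞 L))),
    S.Finite → (SIntegralPoints F L S \ SIntegralPoints G L S).Finite

/-- `f` is a nonconstant curve in `V` whose coordinates are polynomials in the variable `z` and in
finitely many exponentials `exp (g i z)` of entire functions `g i`. -/
def ExpCurve (σ : K →+* ℂ) (F : ι → MvPolynomial (Fin n) (𝓞 K)) (f : ℂ → Fin n → ℂ) : Prop :=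
  (∃ (m : ℕ) (g : Fin m → ℂ → ℂ) (P : Fin n → MvPolynomial (Fin (m + 1)) ℂ),
    (∀ i, Differentiable ℂ (g i)) ∧
      ∀ z j, f z j = eval (Fin.cons z fun i => Complex.exp (g i z) : Fin (m + 1) → ℂ) (P j)) ∧
    (∀ z, f z ∈ Points σ F) ∧ ∃ z w, f z ≠ f w

/-- The complex points of `V` are stable under the flow of the linear vector field `x ↦ X x`:
solutions of `y' = X y` that start in `V` stay in `V`. -/
def FlowStable (σ : K →+* ℂ) (F : ι → MvPolynomial (Fin n) (𝓞 K))
    (A : Matrix (Fin n) (Fin n) ℂ) : Prop :=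
  ∀ y : ℂ → Fin n → ℂ, (∀ z, HasDerivAt y (A.mulVec (y z)) z) → y 0 ∈ Points σ F →
    ∀ z, y z ∈ Points σ F

/-- The polynomials `F i` are homogeneous for the weights `w`. -/
def WeightHomogeneous (w : Fin n → ℤ) (F : ι → MvPolynomial (Fin n) (𝓞 K)) : Prop :=
  ∀ i, ∃ d : ℤ, ∀ α ∈ (F i).support, ∑ j, w j * α j = d

/-- The coordinates of nonzero weight: the equations of the fixed locus. -/
noncomputable def fixedEquations (K : Type) [Field K] (w : Fin n → ℤ) :
    {j : Fin n // w j ≠ 0} → MvPolynomial (Fin n) (𝓞 K) := fun j => X j.1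

end defs

section flow

/-- The solutions of `y' = A y` are polynomials in the variable and in exponentials. -/
def Rep {n : ℕ} (A : Matrix (Fin n) (Fin n) ℂ) (x : Fin n → ℂ) : Prop :=
  ∃ (m : ℕ) (c : Fin m → ℂ) (P : Fin n → MvPolynomial (Fin (m + 1)) ℂ) (y : ℂ → Fin n → ℂ),
    y 0 = x ∧ (∀ z, HasDerivAt y (A.mulVec (y z)) z) ∧
      ∀ z j, y z j = eval (Fin.cons z fun i => Complex.exp (c i * z) : Fin (m + 1) → ℂ) (P j)

lemma rep_zero {n : ℕ} (A : Matrix (Fin n) (Fin n) ℂ) : Rep A 0 := by
  refine ⟨0, fun i => 0, fun _ => 0, fun _ => 0, rfl, fun z => ?_, fun z j => by simp⟩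
  rw [Matrix.mulVec_zero]
  exact hasDerivAt_const _ _

lemma rep_add {n : ℕ} (A : Matrix (Fin n) (Fin n) ℂ) (x x' : Fin n → ℂ) (h : Rep A x)
    (h' : Rep A x') : Rep A (x + x') := by
  obtain ⟨m, c, P, y, h1, h2, h3⟩ := h
  obtain ⟨m', c', P', y', h1', h2', h3'⟩ := h'
  set e1 : Fin (m + 1) → Fin (m + m' + 1) :=
    Fin.cons 0 fun i => (Fin.castAdd m' i).succ with he1
  set e2 : Fin (m' + 1) → Fin (m + m' + 1) :=
    Fin.cons 0 fun i => (Fin.natAdd m i).succ with he2
  refine ⟨m + m', Fin.append c c', fun j => rename e1 (P j) + rename e2 (P' j),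
    fun z => y z + y' z, by show y 0 + y' 0 = x + x'; rw [h1, h1'], fun z => ?_, fun z j => ?_⟩
  · rw [Matrix.mulVec_add]
    exact (h2 z).add (h2' z)
  · show y z j + y' z j = _
    rw [map_add, eval_rename, eval_rename, h3, h3']
    congr 1
    · congr 1
      congr 1
      funext i
      refine Fin.cases ?_ (fun i => ?_) i
      · simp [he1]
      · simp [he1, Fin.append_left]
    · congr 1
      congr 1
      funext i
      refine Fin.cases ?_ (fun i => ?_) i
      · simp [he2]
      · simp [he2, Fin.append_right]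

lemma rep_gen {n : ℕ} (A : Matrix (Fin n) (Fin n) ℂ) (c : ℂ) (k : ℕ) (x : Fin n → ℂ)
    (hx : ((Matrix.mulVecLin A - c • (1 : Module.End ℂ (Fin n → ℂ))) ^ k) x = 0) : Rep A x := by
  set B : Module.End ℂ (Fin n → ℂ) := Matrix.mulVecLin A - c • (1 : Module.End ℂ (Fin n → ℂ))
    with hB
  set v : ℕ → Fin n → ℂ := fun i => (B ^ i) x with hv
  have hvs : ∀ i, B (v i) = v (i + 1) := by
    intro i
    simp only [hv]
    rw [pow_succ']
    rfl
  have hvk : v k = 0 := hx
  have hAB : ∀ u : Fin n → ℂ, A.mulVec u = c • u + B u := by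
    intro u
    rw [hB]
    simp
  set s : ℂ → Fin n → ℂ := fun z => ∑ i ∈ Finset.range k, (z ^ i / (i.factorial : ℂ)) • v i with hs
  have hds : ∀ z, HasDerivAt s (B (s z)) z := by
    intro z
    have h1 : HasDerivAt s (∑ i ∈ Finset.range k,
        (((i : ℂ) * z ^ (i - 1)) / (i.factorial : ℂ)) • v i) z := by
      apply HasDerivAt.fun_sum
      intro i _
      exact (((hasDerivAt_pow i z).div_const _).smul_const (v i))
    have h2 : B (s z) = ∑ i ∈ Finset.range k,
        (((i : ℂ) * z ^ (i - 1)) / (i.factorial : ℂ)) • v i := by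
      have h3 : B (s z) = ∑ i ∈ Finset.range k, (z ^ i / (i.factorial : ℂ)) • v (i + 1) := by
        simp only [hs, map_sum, map_smul, hvs]
      rw [h3]
      cases k with
      | zero => simp
      | succ k =>
        rw [Finset.sum_range_succ, hvk, smul_zero, add_zero, Finset.sum_range_succ']
        simp only [Nat.cast_zero, zero_mul, zero_div, zero_smul, add_zero]
        refine Finset.sum_congr rfl fun i _ => ?_
        congr 1
        have hne : ((i.factorial : ℕ) : ℂ) ≠ 0 := by exact_mod_cast i.factorial_ne_zero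
        have hne2 : ((i + 1 : ℕ) : ℂ) ≠ 0 := by exact_mod_cast Nat.succ_ne_zero i
        rw [Nat.factorial_succ, Nat.add_sub_cancel, Nat.cast_mul]
        field_simp
    rw [h2]
    exact h1
  refine ⟨1, fun _ => c, fun j => X 1 * ∑ i ∈ Finset.range k, C (v i j / (i.factorial : ℂ)) * X 0 ^ i,
    fun z => Complex.exp (c * z) • s z, ?_, fun z => ?_, fun z j => ?_⟩
  · simp only [mul_zero, Complex.exp_zero, one_smul]
    simp only [hs]
    cases k with
    | zero =>
      simp only [Finset.range_zero, Finset.sum_empty]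
      have : v 0 = x := rfl
      rw [← this, hvk]
    | succ k =>
      rw [Finset.sum_range_succ']
      simp [hv]
  · have h1 : HasDerivAt (fun z : ℂ => Complex.exp (c * z)) (Complex.exp (c * z) * c) z := by
      have h2 : HasDerivAt (fun z : ℂ => c * z) c z := by
        simpa using (hasDerivAt_id z).const_mul c
      exact h2.cexp
    have h3 := h1.smul (hds z)
    have h4 : A.mulVec (Complex.exp (c * z) • s z) =
        Complex.exp (c * z) • B (s z) + (Complex.exp (c * z) * c) • s z := by
      rw [Matrix.mulVec_smul, hAB, smul_add, smul_smul, add_comm]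
    rw [h4]
    exact h3
  · simp only [hs, Pi.smul_apply, Finset.sum_apply, smul_eq_mul, map_mul, map_sum, map_pow, eval_X,
      eval_C, Fin.cons_zero]
    have h1 : (Fin.cons z (fun _ : Fin 1 => Complex.exp (c * z)) : Fin 2 → ℂ) 1
        = Complex.exp (c * z) := rfl
    rw [h1]
    congr 1
    refine Finset.sum_congr rfl fun i _ => ?_
    ring

lemma rep_all {n : ℕ} (A : Matrix (Fin n) (Fin n) ℂ) (x : Fin n → ℂ) : Rep A x := by
  have hx : x ∈ ⨆ c : ℂ, Module.End.maxGenEigenspace (Matrix.mulVecLin A) c := by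
    rw [Module.End.iSup_maxGenEigenspace_eq_top]
    exact Submodule.mem_top
  refine Submodule.iSup_induction (fun c : ℂ => Module.End.maxGenEigenspace (Matrix.mulVecLin A) c)
    (motive := Rep A) hx ?_ (rep_zero A) (fun a b ha hb => rep_add A a b ha hb)
  intro c u hu
  rw [Module.End.mem_maxGenEigenspace] at hu
  obtain ⟨k, hk⟩ := hu
  exact rep_gen A c k u hk

end flow

section

variable {K : Type} [Field K] (σ : K →+* ℂ) {n : ℕ} {ι lam κ : Type}
  (F : ι → MvPolynomial (Fin n) (𝓞 K)) (H : lam → MvPolynomial (Fin n) (𝓞 K))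
  (G : κ → MvPolynomial (Fin n) (𝓞 K))

/-- The points on the curves `ExpCurve` in `V`. -/
def CurvePoints : Set (Fin n → ℂ) := {y | ∃ f, ExpCurve σ F f ∧ ∃ z, f z = y}

lemma isClosed_points : IsClosed (Points σ F) := by
  have : Points σ F = ⋂ i, {x | eval₂ (σ.comp (algebraMap (𝓞 K) K)) x (F i) = 0} := by
    ext x; simp [Points]
  rw [this]
  refine isClosed_iInter fun i => ?_
  have h2 : (fun x : Fin n → ℂ => eval₂ (σ.comp (algebraMap (𝓞 K) K)) x (F i)) =
      fun x => eval x (map (σ.comp (algebraMap (𝓞 K) K)) (F i)) := by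
    funext x
    rw [eval_map]
  show IsClosed ((fun x : Fin n → ℂ => eval₂ (σ.comp (algebraMap (𝓞 K) K)) x (F i)) ⁻¹' {0})
  rw [h2]
  exact isClosed_singleton.preimage (MvPolynomial.continuous_eval _)

/-- the closure of the curves lies in `V'` -/
lemma closure_subset (h : ExpCurvesIn σ F G)
    (hden : ((Points σ F \ Points σ H) \ closure (CurvePoints σ F)).Finite) :
    ((Points σ F \ Points σ H) \ Points σ G).Finite := by
  have h1 : CurvePoints σ F ⊆ Points σ G := by
    rintro y ⟨f, ⟨⟨m, g, P, hg, hP⟩, hfF, hne⟩, z, rfl⟩ l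
    have hd : Differentiable ℂ f := by
      rw [differentiable_pi]
      intro j
      have e : (fun z => f z j) = fun z => eval (vec g z) (P j) := funext fun z => hP z j
      rw [e]
      apply differentiable_eval
      rw [differentiable_pi]
      intro i
      refine Fin.cases ?_ (fun i => ?_) i
      · exact differentiable_id
      · exact (hg i).cexp
    exact h f ⟨hd, fun z => z, differentiable_id, ⟨0, 1, zero_ne_one⟩, m, g, P, hg, hP⟩
      (fun z i => hfF z i) hne z l
  refine hden.subset ?_
  rintro x ⟨hx, hxG⟩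
  exact ⟨hx, fun hcl => hxG ((isClosed_points σ G).closure_subset_iff.2 h1 hcl)⟩

lemma points_elim (x : Fin n → ℂ) :
    x ∈ Points σ (Sum.elim F H) ↔ x ∈ Points σ F ∧ x ∈ Points σ H := by
  simp [Points]

lemma intPoints_elim (L : Type) [Field L] [NumberField L] [Algebra K L]
    (S : Set (HeightOneSpectrum (𝓞 L))) (x : Fin n → L) :
    x ∈ SIntegralPoints (Sum.elim F H) L S ↔
      x ∈ SIntegralPoints F L S ∧ x ∈ SIntegralPoints H L S := by
  constructor
  · rintro ⟨h1, h2⟩
    exact ⟨⟨h1, fun i => h2 (Sum.inl i)⟩, ⟨h1, fun i => h2 (Sum.inr i)⟩⟩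
  · rintro ⟨⟨h1, h2⟩, ⟨_, h3⟩⟩
    refine ⟨h1, fun i => ?_⟩
    rcases i with i | i
    · exact h2 i
    · exact h3 i

lemma entire_iff
    (hden : ((Points σ F \ Points σ H) \ closure (CurvePoints σ F)).Finite) :
    EntireCurvesIn σ F G ↔ ((Points σ F \ Points σ H) \ Points σ G).Finite ∧
      EntireCurvesIn σ (Sum.elim F H) G := by
  constructor
  · intro h
    refine ⟨closure_subset σ F H G (fun f hf hF hne z l => h f hf.1 (fun z i => hF z i) hne z l)
      hden, fun f hf hF hne => h f hf (fun z => ((points_elim σ F H _).1 (hF z)).1) hne⟩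
  · rintro ⟨hfin, hZ⟩ f hf hF hne z l
    by_contra hl
    have hdiff : ∀ Q : MvPolynomial (Fin n) (𝓞 K),
        Differentiable ℂ fun z => eval₂ (σ.comp (algebraMap (𝓞 K) K)) (f z) Q := by
      intro Q
      have e : (fun z => eval₂ (σ.comp (algebraMap (𝓞 K) K)) (f z) Q) =
          fun z => eval (f z) (map (σ.comp (algebraMap (𝓞 K) K)) Q) := by
        funext z
        rw [eval_map]
      rw [e]
      exact differentiable_eval hf _
    have hev : ∀ᶠ z' in 𝓝[≠] z, eval₂ (σ.comp (algebraMap (𝓞 K) K)) (f z') (G l) ≠ 0 :=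
      ((hdiff (G l)).continuous.continuousAt.eventually_ne hl).filter_mono nhdsWithin_le_nhds
    obtain ⟨a, b, hab⟩ := hne
    obtain ⟨j0, hj0⟩ := Function.ne_iff.1 hab
    have hfj : Differentiable ℂ fun z => f z j0 := by
      rw [differentiable_pi] at hf
      exact hf j0
    have hT : ∀ᶠ z' in 𝓝[≠] z, ∀ u ∈ (Points σ F \ Points σ H) \ Points σ G, f z' ≠ u := by
      rw [Filter.eventually_all_finite hfin]
      intro u _
      by_contra hcon
      have hfr : ∃ᶠ z' in 𝓝[≠] z, f z' j0 = u j0 := by
        rw [Filter.not_eventually] at hcon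
        refine hcon.mono fun z' hz' => ?_
        push Not at hz'
        rw [hz']
      have h2 := AnalyticOnNhd.eq_of_frequently_eq
        (fun y _ => hfj.analyticAt y) (fun y _ => analyticAt_const (v := u j0)) hfr
      exact hj0 ((congrFun h2 a).trans (congrFun h2 b).symm)
    have hall : ∀ j, ∀ z', eval₂ (σ.comp (algebraMap (𝓞 K) K)) (f z') (H j) = 0 := by
      intro j z'
      have h1 : ∃ᶠ z' in 𝓝[≠] z,
          eval₂ (σ.comp (algebraMap (𝓞 K) K)) (f z') (H j) = (0 : ℂ) := by
        apply Filter.Eventually.frequently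
        filter_upwards [hev, hT] with y hy hy2
        by_contra hcon
        exact hy2 (f y) ⟨⟨hF y, fun hmem => hcon (hmem j)⟩, fun hmem => hy (hmem l)⟩ rfl
      have h2 := AnalyticOnNhd.eq_of_frequently_eq
        (fun y _ => (hdiff (H j)).analyticAt y) (fun y _ => analyticAt_const (v := (0 : ℂ))) h1
      exact congrFun h2 z'
    exact hl (hZ f hf (fun y => (points_elim σ F H _).2 ⟨hF y, fun j => hall j y⟩) ⟨a, b, hab⟩ z l)

lemma integral_iff [NumberField K]
    (hden : ((Points σ F \ Points σ H) \ closure (CurvePoints σ F)).Finite) :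
    IntegralPointsFinite F G ↔ ((Points σ F \ Points σ H) \ Points σ G).Finite ∧
      IntegralPointsFinite (Sum.elim F H) G := by
  constructor
  · intro h
    have h' : FinitelyManyIntegral F G := fun L _ _ _ S hS => h L S hS
    refine ⟨closure_subset σ F H G (main F G h' σ) hden, fun L _ _ _ S hS => ?_⟩
    refine (h L S hS).subset ?_
    rintro x ⟨h1, h2⟩
    exact ⟨((intPoints_elim F H L S x).1 h1).1, h2⟩
  · rintro ⟨hfin, hZ⟩ L _ _ _ S hS
    letI : Algebra K ℂ := σ.toAlgebra
    haveI : Algebra.IsAlgebraic K L := by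
      haveI := NumberField.to_finiteDimensional (K := L)
      haveI : IsScalarTower ℚ K L := by infer_instance
      haveI : FiniteDimensional K L := FiniteDimensional.right ℚ K L
      infer_instance
    let τ : L →ₐ[K] ℂ := IsAlgClosed.lift
    have hτ : ∀ (x : Fin n → L) (Q : MvPolynomial (Fin n) (𝓞 K)),
        τ (eval₂ ((algebraMap K L).comp (algebraMap (𝓞 K) K)) x Q) =
          eval₂ (σ.comp (algebraMap (𝓞 K) K)) (fun j => τ (x j)) Q := by
      intro x Q
      have h1 : (τ : L →+* ℂ).comp ((algebraMap K L).comp (algebraMap (𝓞 K) K)) =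
          σ.comp (algebraMap (𝓞 K) K) := by
        ext a
        exact τ.commutes _
      have h2 := MvPolynomial.hom_eval₂ Q ((algebraMap K L).comp (algebraMap (𝓞 K) K))
        (τ : L →+* ℂ) x
      rw [h1] at h2
      exact h2
    have hinj : Function.Injective τ := (τ : L →+* ℂ).injective
    have hinj0 : ∀ a : L, τ a = 0 → a = 0 := fun a ha => hinj (by rw [ha, map_zero])
    have hfin2 : {x : Fin n → L | (fun j => τ (x j)) ∈
        (Points σ F \ Points σ H) \ Points σ G}.Finite := by
      refine hfin.preimage (f := fun x : Fin n → L => fun j => τ (x j)) ?_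
      intro a _ b _ hab
      funext j
      exact hinj (congrFun hab j)
    refine ((hZ L S hS).union hfin2).subset ?_
    rintro x ⟨h1, h2⟩
    by_cases hH : x ∈ SIntegralPoints H L S
    · exact Or.inl ⟨(intPoints_elim F H L S x).2 ⟨h1, hH⟩, h2⟩
    · refine Or.inr ⟨⟨fun i => by rw [← hτ, h1.2 i, map_zero], fun hmem => hH ⟨h1.1, fun l => ?_⟩⟩,
        fun hmem => h2 ⟨h1.1, fun l => ?_⟩⟩
      · exact hinj0 _ (by rw [hτ]; exact hmem l)
      · exact hinj0 _ (by rw [hτ]; exact hmem l)

/-- points moved by a flow lie on curves -/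
lemma flow_points (A : Matrix (Fin n) (Fin n) ℂ) (hA : FlowStable σ F A) (x : Fin n → ℂ)
    (hx : x ∈ Points σ F) (hAx : A.mulVec x ≠ 0) : x ∈ CurvePoints σ F := by
  obtain ⟨m, c, P, y, h1, h2, h3⟩ := rep_all A x
  refine ⟨y, ⟨⟨m, fun i z => c i * z, P, fun i => by fun_prop, h3⟩,
    hA y h2 (by rw [h1]; exact hx), ?_⟩, 0, h1⟩
  by_contra hcon
  push Not at hcon
  have h4 : y = fun _ => x := by
    funext z
    rw [hcon z 0, h1]
  have h5 := h2 0
  rw [h4] at h5
  exact hAx (h5.unique (hasDerivAt_const _ _))

/-- the orbits of the torus -/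
lemma torus_points (w : Fin n → ℤ) (hF : WeightHomogeneous w F) (x : Fin n → ℂ)
    (hx : x ∈ Points σ F) (hxH : x ∉ Points σ (fixedEquations K w)) : x ∈ CurvePoints σ F := by
  have hj : ∃ j, w j ≠ 0 ∧ x j ≠ 0 := by
    by_contra hcon
    push Not at hcon
    apply hxH
    rintro ⟨j, hj⟩
    show eval₂ (σ.comp (algebraMap (𝓞 K) K)) x (X j) = 0
    rw [eval₂_X]
    exact hcon j hj
  obtain ⟨j, hwj, hxj⟩ := hj
  have hwj' : (w j : ℂ) ≠ 0 := by exact_mod_cast hwj
  refine ⟨fun z i => Complex.exp (w i * z) * x i, ⟨⟨n, fun i z => w i * z,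
    fun i => X i.succ * C (x i), fun i => by fun_prop, fun z i => by simp⟩, ?_, ?_⟩, 0, ?_⟩
  · intro z i
    obtain ⟨d, hd⟩ := hF i
    have h1 : eval₂ (σ.comp (algebraMap (𝓞 K) K)) (fun i => Complex.exp (w i * z) * x i) (F i) =
        Complex.exp (d * z) * eval₂ (σ.comp (algebraMap (𝓞 K) K)) x (F i) := by
      rw [eval₂_eq', eval₂_eq', Finset.mul_sum]
      refine Finset.sum_congr rfl fun α hα => ?_
      have h2 : ∏ i, (Complex.exp (w i * z) * x i) ^ α i =
          Complex.exp (d * z) * ∏ i, x i ^ α i := by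
        simp only [mul_pow]
        rw [Finset.prod_mul_distrib]
        congr 1
        simp only [← Complex.exp_nat_mul]
        rw [← Complex.exp_sum]
        congr 1
        rw [← hd α hα]
        push_cast
        rw [Finset.sum_mul]
        exact Finset.sum_congr rfl fun i _ => by ring
      rw [h2]
      ring
    rw [h1, hx i, mul_zero]
  · refine ⟨0, Real.log 2 / w j, fun hcon => ?_⟩
    have h1 := congrFun hcon j
    simp only [mul_zero, Complex.exp_zero, one_mul] at h1
    rw [mul_div_cancel₀ _ hwj'] at h1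
    have h2 : Complex.exp ((Real.log 2 : ℝ) : ℂ) = 2 := by
      rw [← Complex.ofReal_exp, Real.exp_log (by norm_num)]
      norm_num
    rw [h2] at h1
    apply hxj
    linear_combination -h1
  · funext i
    simp

end

section reduces

variable {K : Type} [Field K] {n : ℕ} {ι lam κ : Type}

/-- Each of the conditions (i) and (ii) holds for `(V, V')` if and only if all but finitely many
complex points of `V` outside `Z` are in `V'` and it holds for `(Z, Z ∩ V')`; here `Z` is given in
`V` by `H`. In particular the equivalence of (i) and (ii) for `(Z, Z ∩ V')` implies that for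
`(V, V')`. -/
def ReducesTo (σ : K →+* ℂ) (F : ι → MvPolynomial (Fin n) (𝓞 K))
    (H : lam → MvPolynomial (Fin n) (𝓞 K)) (G : κ → MvPolynomial (Fin n) (𝓞 K)) : Prop :=
  (EntireCurvesIn σ F G ↔ ((Points σ F \ Points σ H) \ Points σ G).Finite ∧
    EntireCurvesIn σ (Sum.elim F H) G) ∧
  (IntegralPointsFinite F G ↔ ((Points σ F \ Points σ H) \ Points σ G).Finite ∧
    IntegralPointsFinite (Sum.elim F H) G) ∧
  ((EntireCurvesIn σ (Sum.elim F H) G ↔ IntegralPointsFinite (Sum.elim F H) G) →
    (EntireCurvesIn σ F G ↔ IntegralPointsFinite F G))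

/-- Both (i) and (ii) are equivalent to the finiteness of the set of complex points of `V` outside
`V'`. -/
def BothFinite (σ : K →+* ℂ) (F : ι → MvPolynomial (Fin n) (𝓞 K))
    (G : κ → MvPolynomial (Fin n) (𝓞 K)) : Prop :=
  (EntireCurvesIn σ F G ↔ (Points σ F \ Points σ G).Finite) ∧
  (IntegralPointsFinite F G ↔ (Points σ F \ Points σ G).Finite)

end reduces

theorem result :
    ∀ (K : Type) [Field K] [NumberField K] (σ : K →+* ℂ) (n : ℕ) (ι : Type)
      (F : ι → MvPolynomial (Fin n) (𝓞 K)) (κ : Type) (G : κ → MvPolynomial (Fin n) (𝓞 K)),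
      -- reduction to a subscheme `Z` given by `H`
      (∀ (lam : Type) (H : lam → MvPolynomial (Fin n) (𝓞 K)),
        ((Points σ F \ Points σ H) \ closure (CurvePoints σ F)).Finite → ReducesTo σ F H G) ∧
      -- the case of empty `Z`
      ((Points σ F \ closure (CurvePoints σ F)).Finite → BothFinite σ F G) ∧
      -- linear flows
      (∀ (Δ : Type) (A : Δ → Matrix (Fin n) (Fin n) ℂ), (∀ δ, FlowStable σ F (A δ)) →
        -- reduction to any `Z` containing all but finitely many of the fixed points
        (∀ (lam : Type) (H : lam → MvPolynomial (Fin n) (𝓞 K)),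
          {x | x ∈ Points σ F \ Points σ H ∧ ∀ δ, (A δ).mulVec x = 0}.Finite →
          ReducesTo σ F H G) ∧
        -- finitely many fixed points
        ({x | x ∈ Points σ F ∧ ∀ δ, (A δ).mulVec x = 0}.Finite → BothFinite σ F G)) ∧
      -- torus actions
      (∀ w : Fin n → ℤ, WeightHomogeneous w F →
        -- reduction to the fixed locus
        ReducesTo σ F (fixedEquations K w) G ∧
        -- no weight zero
        ((∀ j, w j ≠ 0) → BothFinite σ F G)) := by
  intro K _ _ σ n ι F κ G
  have key : ∀ (lam : Type) (H : lam → MvPolynomial (Fin n) (𝓞 K)),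
        ((Points σ F \ Points σ H) \ closure (CurvePoints σ F)).Finite →
          ReducesTo σ F H G := by
    intro lam H hden
    have h1 := entire_iff σ F H G hden
    have h2 := integral_iff σ F H G hden
    refine ⟨h1, h2, fun h3 => ?_⟩
    rw [h1, h2, h3]
  have hempty : (Points σ F \ closure (CurvePoints σ F)).Finite → BothFinite σ F G := by
    intro hfin
    set H : Unit → MvPolynomial (Fin n) (𝓞 K) := fun _ => 1 with hH
    have hHp : Points σ H = ∅ := by
      rw [Set.eq_empty_iff_forall_notMem]
      intro x hx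
      have := hx ()
      rw [hH] at this
      simp at this
    obtain ⟨h1, h2, -⟩ := key Unit H (by rw [hHp, Set.diff_empty]; exact hfin)
    rw [hHp, Set.diff_empty] at h1 h2
    have h4 : EntireCurvesIn σ (Sum.elim F H) G := by
      intro f _ hf _ z
      have := ((points_elim σ F H _).1 (hf z)).2
      rw [hHp] at this
      exact absurd this (Set.notMem_empty _)
    have h5 : IntegralPointsFinite (Sum.elim F H) G := by
      intro L _ _ _ S _
      refine Set.finite_empty.subset ?_
      rintro x ⟨h6, _⟩
      have h7 := ((intPoints_elim F H L S x).1 h6).2.2 ()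
      rw [hH] at h7
      simp at h7
    exact ⟨by rw [h1]; exact ⟨fun h => h.1, fun h => ⟨h, h4⟩⟩,
      by rw [h2]; exact ⟨fun h => h.1, fun h => ⟨h, h5⟩⟩⟩
  refine ⟨key, hempty, fun Δ A hA => ⟨fun lam H hfix => key lam H ?_,
    fun hfix => hempty ?_⟩, fun w hw => ⟨key _ (fixedEquations K w) ?_,
    fun hne => hempty ?_⟩⟩
  · refine hfix.subset ?_
    rintro x ⟨hx, hcl⟩
    refine ⟨hx, fun δ => ?_⟩
    by_contra hne
    exact hcl (subset_closure (flow_points σ F (A δ) (hA δ) x hx.1 hne))
  · refine hfix.subset ?_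
    rintro x ⟨hx, hcl⟩
    refine ⟨hx, fun δ => ?_⟩
    by_contra hne
    exact hcl (subset_closure (flow_points σ F (A δ) (hA δ) x hx hne))
  · refine Set.finite_empty.subset ?_
    rintro x ⟨hx, hcl⟩
    exact hcl (subset_closure (torus_points σ F w hw x hx.1 hx.2))
  · refine (Set.finite_singleton (0 : Fin n → ℂ)).subset ?_
    rintro x ⟨hx, hcl⟩
    rw [Set.mem_singleton_iff]
    by_contra hne0
    refine hcl (subset_closure (torus_points σ F w hw x hx fun hmem => hne0 ?_))
    funext j
    have h4 : eval₂ (σ.comp (algebraMap (𝓞 K) K)) x (X j) = 0 := hmem ⟨j, hne j⟩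
    rwa [eval₂_X] at h4

end Pool.Agent.Results.MP_e97a4d_nt.TorusReduction
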