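import Mathlib
import Pool.Agent.Helper201_HF.Blv

set_option autoImplicit false

/-!
# The Bombieri-Lang-Vojta equivalence for sums of elements of a group of finite rank, with one constant
# for all varieties of bounded degree

Let `V` be an affine variety over a number field `K`, the zeros in affine `n`-space of finitely many
polynomials `F` of degree at most `d` with coefficients in `𝓞 K`, and `V'` the closed subset of `V`
given by `G`. There are constants `C r Γ`, for every natural number `r` and every finitely generated
group `Γ` of nonzero algebraic numbers, depending only on `n`, `d`, `r` and `Γ`, and the SAME for all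
`K`, `V` and `V'`, such that the following are equivalent for every `V`, `V'` as above:

* every nonconstant entire curve of exponential type in `V` lies in `V'` (`ExpType`: after composition
  with some nonconstant entire function, a polynomial in `z` and exponentials of entire functions);
* every nonconstant map from the punctured line to `V` lies in `V'`;
* (`UniformBounds`) for all `r` and `Γ`, all algebraic numbers `u_1, …, u_r` with a power in `Γ` and
  ALL vectors `V_1, …, V_r` of algebraic numbers: if `x = u_1 V_1 + … + u_r V_r` is a point of `V`
  outside `V'`, then `h(1 : x) ≤ C (1 + h(1 : V) + H)` and `x` is equal to a partial sum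
  `∑_{j ∈ J} u_j V_j` with `h(1 : (u_j)_{j ∈ J}) ≤ C (1 + h(1 : V) + H)`, where `C = C r Γ` and `H` is
  a bound for the heights of the polynomials in `F`;
* (`SumsFinite`) for each number field `L`, each `r`, `Γ` and `B`, the points `x` as above in `V(L)` with
  `h(1 : V) ≤ B` are finite in number.

Both conditions of the Bombieri-Lang-Vojta conjecture, (i) on entire curves and (ii) on `S`-integral
points, imply these.

The new part is the third condition with constants that do not depend on `V`; it is proved by an
extension of the theorem on germs of the library folder `Y215/SK` of the starting repository to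
equations with moving coefficients (`Helper201_HF/CoreT`, `Aff2`). The equivalence with entire curves of
exponential type uses `W235/RM/Final` of the starting repository.
-/

namespace Pool.Agent.Results.MP_e97a4d_nt.UniformFiniteRankSums

open MvPolynomial hiding psum
open NumberField Pool.Agent.Helper259.AbsHt Pool.Agent.Y215.SK Pool.Agent.Helper201_HF
open Pool.Agent.W235.RM
open Pool.Agent.H159R3.Exp (ExpCurvesIn FinitelyManyIntegral)

theorem result (n d : ℕ) : ∃ C : ℕ → Subgroup Qbarˣ → ℝ, (∀ r Γ, 0 < C r Γ) ∧
    ∀ (K : Type) [Field K] [NumberField K] (σ : K →+* ℂ) (ι κ : Type) [Finite ι]
      (F : ι → MvPolynomial (Fin n) (𝓞 K)) (G : κ → MvPolynomial (Fin n) (𝓞 K)),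
      (∀ i, (F i).totalDegree ≤ d) →
      List.TFAE [ExpCurvesIn σ F G, GmCurvesIn σ F G, UniformBounds C F G, SumsFinite F G] ∧
      (EntireCurvesIn σ F G → UniformBounds C F G) ∧
      (FinitelyManyIntegral F G → UniformBounds C F G) :=
  blv n d

end Pool.Agent.Results.MP_e97a4d_nt.UniformFiniteRankSums
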